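import Pool.Agent.L7h9.MS.Pts
import Pool.Agent.L7h9.CP.Lin
import Pool.Agent.TH826.SX.Det
set_option autoImplicit false

/-!
The limits of the regulators on all loops have full rank, and the loops for large powers of units.
-/

namespace Pool.Agent.L7h9.MS

open Pool.Agent.TH826.MK

open Pool.Agent.L7h9.FR (Par VV Late)

variable {m M N : ℕ}

theorem kernel_cc {n : Fin (m + 1) → ℝ} (hn : Function.Injective n) (hM : 0 < M)
    (z : Fin M × Fin (m + 1) → ℝ)
    (h : ∀ (i0 : Fin (m + 1)) (l0 : Fin M), (∃ i, n i < n i0) →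
      ∑ q : Fin M × Fin (m + 1), cc n M i0 l0 q.1 q.2 * z q = 0) :
    ∀ i0 : Fin (m + 1), (∃ i, n i < n i0) → ∀ l0 : Fin M, z (l0, i0) = 0 := by
  classical
  intro i0
  induction hc : (Finset.univ.filter fun i => n i0 < n i).card using Nat.strong_induction_on
    generalizing i0 with
  | _ c ih =>
    intro hi l0
    have h1 := h i0 l0 hi
    rw [Fintype.sum_eq_single (l0, i0)] at h1
    · have h2 : cc n M i0 l0 l0 i0 = -DD n M i0 := by
        unfold cc
        rw [if_pos rfl, if_pos rfl]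
      have h3 := DD_pos n M i0 hM hi
      change cc n M i0 l0 l0 i0 * z (l0, i0) = 0 at h1
      rw [h2] at h1
      exact (mul_eq_zero.1 h1).resolve_left (by linarith)
    · rintro ⟨l, i⟩ hne
      show cc n M i0 l0 l i * z (l, i) = 0
      unfold cc
      by_cases h2 : i = i0
      · have h3 : (l : ℕ) ≠ l0 := by
          intro h3
          exact hne (by rw [h2, Fin.ext h3])
        rw [if_pos h2, if_neg h3, zero_mul]
      · rw [if_neg h2]
        split_ifs with h3
        · have h4 : z (l, i) = 0 := by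
            refine ih _ ?_ i rfl ⟨i0, h3⟩ l
            rw [← hc]
            refine Finset.card_lt_card ?_
            rw [Finset.ssubset_iff_of_subset]
            · exact ⟨i, by simp [h3], by simp⟩
            · intro i' hi'
              rw [Finset.mem_filter] at hi' ⊢
              exact ⟨hi'.1, h3.trans hi'.2⟩
          rw [h4, mul_zero]
        · rw [zero_mul]

theorem kernel_dl (w : Fin (N - 1) → ℝ)
    (h : ∀ j0 : Fin N, ∑ j : Fin (N - 1), dl j0 j * w j = 0) : w = 0 := by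
  classical
  have key : ∀ t : ℕ, ∀ j : Fin (N - 1), (j : ℕ) = t → w j = 0 := by
    intro t
    induction t using Nat.strong_induction_on with
    | _ t ih =>
      intro j hj
      have hjN : (j : ℕ) < N := by have := j.2; omega
      have h1 := h ⟨j, hjN⟩
      rw [Fintype.sum_eq_single j] at h1
      · unfold dl at h1
        simpa using h1
      · intro j' hj'
        have hne : (j' : ℕ) ≠ j := fun h => hj' (Fin.ext h)
        show dl j j' * w j' = 0
        unfold dl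
        rw [if_neg hne]
        by_cases h2 : (j' : ℕ) + 1 = j
        · rw [ih j' (by omega) j' rfl, mul_zero]
        · rw [if_neg h2]
          ring
  funext j
  exact key j j rfl

variable {K : Type*} [Field K] (a : Fin (m + 1) → Kˣ)

/-- The exponents at the embedding `σ`. -/
noncomputable def ex (σ : K →+* ℂ) (i : Fin (m + 1)) : ℝ := Real.log ‖σ (a i)‖

/-- The loops: the embedding, and the indices of the root `ω ^ l a_i` and of `ζ ^ j`. -/
abbrev Rw (M N : ℕ) : Type _ :=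
  {r : (K →+* ℂ) × Fin (m + 1) × Fin M × Fin N //
    Function.Injective (ex a r.1) ∧ ∃ i, ex a r.1 i < ex a r.1 r.2.1}

/-- The limit matrix. -/
noncomputable def LM (r : Rw a M N) (q : Fin (N - 1) × Fin M × Fin (m + 1)) : ℝ :=
  2 * Real.pi * (dl r.1.2.2.2 q.1 * cc (ex a r.1.1) M r.1.2.1 r.1.2.2.1 q.2.1 q.2.2)

variable {a}

theorem ex_lt {σ : K →+* ℂ} {i j : Fin (m + 1)} (h : ‖σ (a i)‖ < ‖σ (a j)‖) :
    ex a σ i < ex a σ j := by
  refine Real.log_lt_log (norm_pos_iff.2 ?_) h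
  exact (map_ne_zero σ).2 (a i).ne_zero

theorem ex_inj {σ : K →+* ℂ} (h : Function.Injective fun i => ‖σ (a i)‖) :
    Function.Injective (ex a σ) := by
  intro i j hij
  by_contra hne
  rcases lt_or_gt_of_ne (h.ne hne) with h1 | h1
  · exact absurd hij (ex_lt h1).ne
  · exact absurd hij (ex_lt h1).ne'

variable (a) in
/-- For every `i` there is an embedding `σ` such that the absolute values of all `σ a_k` are
different and that of `σ a_i` is not the smallest one. -/
def Sep : Prop := ∀ i, ∃ σ : K →+* ℂ, Function.Injective (fun k => ‖σ (a k)‖) ∧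
  ∃ k, ‖σ (a k)‖ < ‖σ (a i)‖

theorem LM_kernel (hM : 0 < M) (h : Sep a) (x : Fin (N - 1) × Fin M × Fin (m + 1) → ℝ)
    (hx : ∀ r : Rw a M N, ∑ q, LM a r q * x q = 0) : x = 0 := by
  classical
  have hz : ∀ (j0 : Fin N) (l0 : Fin M) (i0 : Fin (m + 1)),
      ∑ j : Fin (N - 1), dl j0 j * x (j, l0, i0) = 0 := by
    intro j0 l0 i0
    obtain ⟨σ, hσ, k, hk⟩ := h i0
    refine kernel_cc (ex_inj hσ) hM (fun q => ∑ j : Fin (N - 1), dl j0 j * x (j, q.1, q.2))
      (fun i1 l1 hi1 => ?_) i0 ⟨k, ex_lt hk⟩ l0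
    have h1 := hx ⟨(σ, i1, l1, j0), ex_inj hσ, hi1⟩
    have h2 : ∑ q, LM a (⟨(σ, i1, l1, j0), ex_inj hσ, hi1⟩ : Rw a M N) q * x q =
        (2 * Real.pi) * ∑ q : Fin M × Fin (m + 1), cc (ex a σ) M i1 l1 q.1 q.2 *
          ∑ j : Fin (N - 1), dl j0 j * x (j, q.1, q.2) := by
      rw [Fintype.sum_prod_type, Finset.sum_comm, Finset.mul_sum]
      refine Finset.sum_congr rfl fun q _ => ?_
      rw [Finset.mul_sum, Finset.mul_sum]
      refine Finset.sum_congr rfl fun j _ => ?_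
      unfold LM
      ring
    rw [h2] at h1
    exact (mul_eq_zero.1 h1).resolve_left (by have := Real.pi_pos; positivity)
  funext q
  obtain ⟨j, l, i⟩ := q
  exact congrFun (kernel_dl (fun j => x (j, l, i)) fun j0 => hz j0 l i) j

/-- The loops for large powers. -/
theorem exists_loops {ζ ω : K} (hζ : IsPrimitiveRoot ζ N) (hω : IsPrimitiveRoot ω M)
    (hN : 0 < N) (hM : 0 < M) (h : Sep a) :
    ∃ P₀ : ℕ, ∀ P ≥ P₀,
      ∃ Γ : Fin (N - 1) × Fin M × Fin (m + 1) → Torus (CR M N fun i => a i ^ P) 1,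
        (∀ t, (∃ σ : K →+* ℂ, ∀ θ x, (Γ t).e θ (cst M N _ x) = σ x) ∧
          ∀ θ, (Γ t).e θ (gx M N _ Gn.y) ≠ 0) ∧
        (Matrix.of fun t q => (Γ t).reg
          (cl M (fun i => a i ^ P) hζ.pow_eq_one hω.pow_eq_one q)).det ≠ 0 := by
  classical
  obtain ⟨f, hf⟩ := Pool.Agent.L7h9.CP.exists_minor (LM (N := N) a) (LM_kernel hM h)
  obtain ⟨δ, hδ, hnear⟩ := Pool.Agent.TH826.SX.det_ne_zero_near _ hf
  have hZ : ∀ σ : K →+* ℂ, IsPrimitiveRoot (σ ζ) N := fun σ => hζ.map_of_injective σ.injective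
  have hΩ : ∀ σ : K →+* ℂ, IsPrimitiveRoot (σ ω) M := fun σ => hω.map_of_injective σ.injective
  have hD : ∀ t, 0 < DD (ex a (f t).1.1) M (f t).1.2.1 := fun t => DD_pos _ _ _ hM (f t).2.2
  set κ : Fin (N - 1) × Fin M × Fin (m + 1) → ℝ := fun t =>
    DD (ex a (f t).1.1) M (f t).1.2.1 / 2 with hκ
  have hκ0 : ∀ t, 0 < κ t := fun t => by
    have := hD t
    simp only [hκ]
    linarith
  have hκD : ∀ t, κ t < DD (ex a (f t).1.1) M (f t).1.2.1 := fun t => by
    have := hD t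
    simp only [hκ]
    linarith
  have hlate : ∀ t, Late (VV (ex a (f t).1.1)) fun s p =>
      Nice M N ((f t).1.1 ω) ((f t).1.1 ζ) (κ t) (f t).1.2.1 (f t).1.2.2.1 (f t).1.2.2.2 p ∧
      ∀ q : Fin (N - 1) × Fin M × Fin (m + 1),
        |pairing ![uj M N ((f t).1.1 ω) ((f t).1.1 ζ) (κ t) (f t).1.2.1 (f t).1.2.2.1
            (f t).1.2.2.2 q.1 p,
          bx ((f t).1.1 ω) (κ t) (f t).1.2.1 (f t).1.2.2.1 q.2.1 q.2.2 p] / s -
          LM a (f t) q| ≤ δ / 2 := fun t =>
    (late_nice (f t).2.1 hM (hΩ _).pow_eq_one (hκ0 t) (hκD t) hN.ne' (hZ _).pow_eq_one).and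
      (Late.all fun q : Fin (N - 1) × Fin M × Fin (m + 1) =>
        late_reg (f t).2.1 hM (hΩ _) (hκ0 t) (hκD t) hN.ne' (hZ _) (f t).1.2.2.2.2
          (f t).1.2.2.1.2 (by have := q.1.2; omega) q.2.1.2 q.2.2 (by linarith))
  choose S hS hS' using hlate
  obtain ⟨P₀, hP₀⟩ := exists_nat_ge (∑ t, |S t|)
  refine ⟨max P₀ 1, fun P hP => ?_⟩
  have hP1 : (1 : ℝ) ≤ P := by exact_mod_cast (le_max_right _ _).trans hP
  have hPS : ∀ t, S t ≤ P := fun t => by
    have h1 := Finset.single_le_sum (f := fun c => |S c|) (fun _ _ => abs_nonneg _)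
      (Finset.mem_univ t)
    have h2 := le_abs_self (S t)
    have h3 : (P₀ : ℝ) ≤ P := by exact_mod_cast (le_max_left _ _).trans hP
    linarith
  have hV : ∀ t, VV (ex a (f t).1.1) (P : ℝ)
      ((P : ℝ), fun i => (f t).1.1 ((a i ^ P : Kˣ) : K)) := by
    intro t
    refine ⟨rfl, fun i => ?_⟩
    show ‖(f t).1.1 ((a i ^ P : Kˣ) : K)‖ = Real.exp (Real.log ‖(f t).1.1 (a i)‖ * P)
    rw [Units.val_pow_eq_pow_val, map_pow, norm_pow, mul_comm, Real.exp_nat_mul, Real.exp_log]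
    exact norm_pos_iff.2 ((map_ne_zero _).2 (a i).ne_zero)
  choose hnice hreg using fun t => hS' t P (hPS t) _ (hV t)
  choose Γ hΓσ hΓy hΓ using fun t => (hnice t).exists_loop (a := fun i => a i ^ P)
    hζ.pow_eq_one hω.pow_eq_one (fun _ => rfl)
  refine ⟨Γ, fun t => ⟨⟨_, hΓσ t⟩, hΓy t⟩, fun h0 => ?_⟩
  have h1 := hnear (Matrix.of fun t q => (Γ t).reg
      (cl M (fun i => a i ^ P) hζ.pow_eq_one hω.pow_eq_one q) / (P : ℝ))
    (fun t q => by
      rw [Matrix.of_apply, Matrix.of_apply, hΓ]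
      exact lt_of_le_of_lt (hreg t q) (by linarith))
  apply h1
  have h4 : (Matrix.of fun t q => (Γ t).reg
      (cl M (fun i => a i ^ P) hζ.pow_eq_one hω.pow_eq_one q) / (P : ℝ)) =
      (P : ℝ)⁻¹ • Matrix.of fun t q => (Γ t).reg
        (cl M (fun i => a i ^ P) hζ.pow_eq_one hω.pow_eq_one q) := by
    ext t k
    rw [Matrix.smul_apply, Matrix.of_apply, Matrix.of_apply, smul_eq_mul, div_eq_inv_mul]
  rw [h4, Matrix.det_smul, h0, mul_zero]

end Pool.Agent.L7h9.MS
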