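import Pool.Agent.L7h9.MS.Sm
set_option autoImplicit false

/-!
The loops around the points `x = Ω ^ l0 a_i0` in the curves `(1 - y ^ N) ∏ (1 - (x / a_i) ^ M) = 1`,
near `y = Z ^ j0`.
-/

namespace Pool.Agent.L7h9.MS

open Pool.Agent.TH826.MK

open Pool.Agent.L7h9.FR

variable {m : ℕ} (n : Fin (m + 1) → ℝ) (M N : ℕ) (Ω Z : ℂ) (κ : ℝ) (i0 : Fin (m + 1))
  (l0 j0 : ℕ)

/-- The function `x`. -/
noncomputable def vx (p : Par m) (θ : Fin 1 → ℝ) : ℂ := p.2 i0 * Ω ^ l0 * (1 + wf κ p θ)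

/-- The factors `1 - (x / a_i) ^ M`. -/
noncomputable def ph (i : Fin (m + 1)) (p : Par m) (θ : Fin 1 → ℝ) : ℂ :=
  1 - (vx Ω κ i0 l0 p θ / p.2 i) ^ M

/-- Their product. -/
noncomputable def ff (p : Par m) (θ : Fin 1 → ℝ) : ℂ := ∏ i, ph M Ω κ i0 l0 i p θ

/-- The function `y ^ N - 1`. -/
noncomputable def hh (p : Par m) (θ : Fin 1 → ℝ) : ℂ := -(ff M Ω κ i0 l0 p θ)⁻¹

/-- The function `y`. -/
noncomputable def vy (p : Par m) (θ : Fin 1 → ℝ) : ℂ :=
  Z ^ j0 * rtn N (hh M Ω κ i0 l0 p) θ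

/-- The exponent of the factor with the index `i ≠ i0`. -/
noncomputable def dd (i : Fin (m + 1)) : ℝ := if n i < n i0 then M * (n i0 - n i) else 0

/-- The sum of these exponents. -/
noncomputable def DD : ℝ := ∑ i, dd n M i0 i

/-- The exponent of all factors. -/
noncomputable def pe (i : Fin (m + 1)) : ℝ := (if i = i0 then -κ else 0) + dd n M i0 i

/-- The winding numbers of the factors. -/
noncomputable def pw (i : Fin (m + 1)) : ℝ := if i = i0 then 1 else 0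

theorem DD_pos (hM : 0 < M) (h : ∃ i, n i < n i0) : 0 < DD n M i0 := by
  obtain ⟨i, hi⟩ := h
  have hM' : (0 : ℝ) < M := by exact_mod_cast hM
  refine Finset.sum_pos' (fun i _ => ?_) ⟨i, Finset.mem_univ _, ?_⟩
  · unfold dd
    split_ifs with h
    · exact mul_nonneg hM'.le (by linarith)
    · exact le_rfl
  · unfold dd
    rw [if_pos hi]
    exact mul_pos hM' (by linarith)

theorem sum_pe : ∑ i, pe n M κ i0 i = DD n M i0 - κ := by
  unfold pe DD
  rw [Finset.sum_add_distrib, Finset.sum_ite_eq' Finset.univ i0 (fun _ => -κ),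
    if_pos (Finset.mem_univ _)]
  ring

theorem sum_pw : ∑ i, pw i0 i = 1 := by
  unfold pw
  rw [Finset.sum_ite_eq' Finset.univ i0 (fun _ => (1 : ℝ)), if_pos (Finset.mem_univ _)]

variable {n M N Ω Z κ i0 l0 j0}

theorem par_ne {s : ℝ} {p : Par m} (h : VV n s p) (i : Fin (m + 1)) : p.2 i ≠ 0 := by
  rw [← norm_pos_iff, h.2]
  exact Real.exp_pos _

theorem ev_par (i : Fin (m + 1)) :
    Ev (VV n) (fun (p : Par m) (_ : Fin 1 → ℝ) => p.2 i) (n i) 0 :=
  ev_exp fun s p hp => hp.2 i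

theorem evSm_wf (hκ : 0 < κ) : EvSm (VV n) (wf (m := m) κ) := (ev_wf n κ).sm (by linarith)

theorem Ω_ne (hM : 0 < M) (hΩ : Ω ^ M = 1) : Ω ≠ 0 := by
  rintro rfl
  rw [zero_pow hM.ne'] at hΩ
  exact zero_ne_one hΩ

theorem ev_vx (hM : 0 < M) (hΩ : Ω ^ M = 1) (hκ : 0 < κ) :
    Ev (VV n) (vx Ω κ i0 l0) (n i0) 0 := by
  have h1 := ((ev_par (n := n) i0).mul
    (ev_const (V := VV n) (pow_ne_zero l0 (Ω_ne hM hΩ)))).mul (evSm_wf (n := n) hκ).near
  exact h1.congr (by ring) (by ring)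

theorem ev_ph (hn : Function.Injective n) (hM : 0 < M) (hΩ : Ω ^ M = 1) (hκ : 0 < κ)
    (i : Fin (m + 1)) : Ev (VV n) (ph M Ω κ i0 l0 i) (pe n M κ i0 i) (pw i0 i) := by
  have hM' : (0 : ℝ) < M := by exact_mod_cast hM
  by_cases hi : i = i0
  · subst hi
    have h1 := ((ev_geom (evSm_wf (n := n) hκ) hM.ne').mul (ev_wf n κ)).neg
    have h2 : Ev (VV n) (ph M Ω κ i l0 i) (0 + -κ) (0 + 1) := by
      refine h1.congr' (late_true fun s p hp θ => ?_)
      have hne := par_ne hp i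
      unfold ph vx
      have e1 : p.2 i * Ω ^ l0 * (1 + wf κ p θ) / p.2 i = Ω ^ l0 * (1 + wf κ p θ) := by
        field_simp
      rw [e1, mul_pow, ← pow_mul, mul_comm l0 M, pow_mul, hΩ, one_pow, one_mul]
      have e2 := geom_sum_mul (1 + wf κ p θ) M
      linear_combination -e2
    refine h2.congr ?_ ?_
    · unfold pe dd
      rw [if_pos rfl, if_neg (lt_irrefl _)]
      ring
    · unfold pw
      rw [if_pos rfl, zero_add]
  · have h1 := ev_pow ((ev_vx (n := n) (i0 := i0) (l0 := l0) hM hΩ hκ).div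
      (ev_par (n := n) i)) M
    have h0 : Ev (VV n) (fun (_ : Par m) (_ : Fin 1 → ℝ) => (1 : ℂ)) 0 0 :=
      ev_const one_ne_zero
    have hpe : pe n M κ i0 i = dd n M i0 i := by
      unfold pe
      rw [if_neg hi, zero_add]
    have hpw : pw i0 i = 0 := by
      unfold pw
      rw [if_neg hi]
    rw [hpe, hpw]
    unfold dd
    rcases lt_or_gt_of_ne (fun h => hi (hn h)) with h | h
    · rw [if_pos h]
      exact (h0.sub_of_gt h1 (mul_pos hM' (by linarith))).congr rfl (by ring)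
    · rw [if_neg (not_lt.2 h.le)]
      exact h0.sub_of_lt h1 (by nlinarith)

theorem ev_ff (hn : Function.Injective n) (hM : 0 < M) (hΩ : Ω ^ M = 1) (hκ : 0 < κ) :
    Ev (VV n) (ff M Ω κ i0 l0) (DD n M i0 - κ) 1 := by
  have h1 := ev_prod Finset.univ fun i (_ : i ∈ Finset.univ) =>
    ev_ph (i0 := i0) (l0 := l0) hn hM hΩ hκ i
  exact h1.congr (sum_pe n M κ i0) (sum_pw i0)

theorem ev_hh (hn : Function.Injective n) (hM : 0 < M) (hΩ : Ω ^ M = 1) (hκ : 0 < κ) :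
    Ev (VV n) (hh M Ω κ i0 l0) (κ - DD n M i0) (-1) :=
  ((ev_ff hn hM hΩ hκ).inv.neg).congr (by ring) rfl

theorem evSm_hh (hn : Function.Injective n) (hM : 0 < M) (hΩ : Ω ^ M = 1) (hκ : 0 < κ)
    (hD : κ < DD n M i0) : EvSm (VV n) (hh M Ω κ i0 l0) :=
  (ev_hh hn hM hΩ hκ).sm (by linarith)

theorem ev_vy (hn : Function.Injective n) (hM : 0 < M) (hΩ : Ω ^ M = 1) (hκ : 0 < κ)
    (hD : κ < DD n M i0) (hN : N ≠ 0) (hZ : Z ≠ 0) :
    Ev (VV n) (vy M N Ω Z κ i0 l0 j0) 0 0 := by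
  have h1 := (ev_const (V := VV n) (pow_ne_zero j0 hZ)).mul
    (ev_rtn hN (evSm_hh (l0 := l0) hn hM hΩ hκ hD))
  exact h1.congr (add_zero _) (add_zero _)

/-- The equation of the curve. -/
theorem late_eq (hn : Function.Injective n) (hM : 0 < M) (hΩ : Ω ^ M = 1) (hκ : 0 < κ)
    (hD : κ < DD n M i0) (hN : N ≠ 0) (hZ : Z ^ N = 1) :
    Late (VV n) fun _ p => ∀ θ,
      (1 - vy M N Ω Z κ i0 l0 j0 p θ ^ N) * ff M Ω κ i0 l0 p θ = 1 := by
  refine ((late_rtn hN (evSm_hh (l0 := l0) hn hM hΩ hκ hD)).and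
    (ev_ff (i0 := i0) (l0 := l0) hn hM hΩ hκ).ne).mono fun s p _ _ hp θ => ?_
  obtain ⟨h1, h2⟩ := hp
  replace h1 := h1 θ
  replace h2 := h2 θ
  unfold vy
  rw [mul_pow, ← pow_mul, mul_comm j0 N, pow_mul, hZ, one_pow, one_mul, h1]
  unfold hh
  field_simp
  ring

/-- The function `y / Z ^ j0 - 1`. -/
theorem ev_rtn_sub (hn : Function.Injective n) (hM : 0 < M) (hΩ : Ω ^ M = 1) (hκ : 0 < κ)
    (hD : κ < DD n M i0) (hN : N ≠ 0) :
    Ev (VV n) (fun p θ => rtn N (hh M Ω κ i0 l0 p) θ - 1) (κ - DD n M i0) (-1) := by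
  have hs := evSm_hh (l0 := l0) hn hM hΩ hκ hD
  have h1 := ev_geom (evSm_rtn hN hs) hN
  have h2 := (ev_hh (i0 := i0) (l0 := l0) hn hM hΩ hκ).div h1
  refine Ev.congr' (h2.congr (sub_zero _) (sub_zero _)) ?_
  refine ((late_rtn hN hs).and h1.ne).mono fun s p _ _ hp θ => ?_
  obtain ⟨h3, h4⟩ := hp
  replace h3 := h3 θ
  replace h4 := h4 θ
  rw [div_eq_iff h4]
  have e := geom_sum_mul (1 + (rtn N (hh M Ω κ i0 l0 p) θ - 1)) N
  have e2 : 1 + (rtn N (hh M Ω κ i0 l0 p) θ - 1) = rtn N (hh M Ω κ i0 l0 p) θ := by ring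
  rw [e2, h3] at e
  rw [e2]
  linear_combination -e

/-- The functions `y - Z ^ j`. -/
theorem ev_ysub (hn : Function.Injective n) (hM : 0 < M) (hΩ : Ω ^ M = 1) (hκ : 0 < κ)
    (hD : κ < DD n M i0) (hN : N ≠ 0) (hZ : IsPrimitiveRoot Z N) (hj0 : j0 < N) {j : ℕ}
    (hj : j < N) :
    Ev (VV n) (fun p θ => vy M N Ω Z κ i0 l0 j0 p θ - Z ^ j)
      ((κ - DD n M i0) * (if j = j0 then 1 else 0)) (-(if j = j0 then 1 else 0)) := by
  have hZ0 : Z ≠ 0 := hZ.ne_zero hN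
  by_cases h : j = j0
  · subst h
    rw [if_pos rfl, mul_one]
    have h1 := (ev_const (V := VV n) (pow_ne_zero j hZ0)).mul
      (ev_rtn_sub (l0 := l0) (N := N) hn hM hΩ hκ hD hN)
    have e : (fun p θ => Z ^ j * (rtn N (hh M Ω κ i0 l0 p) θ - 1)) =
        fun p θ => vy M N Ω Z κ i0 l0 j p θ - Z ^ j := by
      funext p θ
      unfold vy
      ring
    rw [e] at h1
    exact h1.congr (zero_add _) (zero_add _)
  · rw [if_neg h, mul_zero, neg_zero]
    have hne : Z ^ j0 - Z ^ j ≠ 0 := by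
      intro h0
      exact h (hZ.pow_inj hj hj0 (sub_eq_zero.1 h0).symm)
    have h1 := ev_const_add (evSm_const_mul
      (evSm_rtn hN (evSm_hh (l0 := l0) hn hM hΩ hκ hD)) (Z ^ j0)) hne
    have e : (fun p θ => Z ^ j0 - Z ^ j + Z ^ j0 * (rtn N (hh M Ω κ i0 l0 p) θ - 1)) =
        fun p θ => vy M N Ω Z κ i0 l0 j0 p θ - Z ^ j := by
      funext p θ
      unfold vy
      ring
    rw [e] at h1
    exact h1

variable (M N Ω Z κ i0 l0 j0) in
/-- The functions `(y - Z ^ j) / (y - Z ^ (j + 1))`. -/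
noncomputable def uj (j : ℕ) (p : Par m) (θ : Fin 1 → ℝ) : ℂ :=
  (vy M N Ω Z κ i0 l0 j0 p θ - Z ^ j) / (vy M N Ω Z κ i0 l0 j0 p θ - Z ^ (j + 1))

/-- The order of the function with the index `j` at the root with the index `j0`. -/
noncomputable def dl (j0 j : ℕ) : ℝ := (if j = j0 then 1 else 0) - if j + 1 = j0 then 1 else 0

theorem ev_uj (hn : Function.Injective n) (hM : 0 < M) (hΩ : Ω ^ M = 1) (hκ : 0 < κ)
    (hD : κ < DD n M i0) (hN : N ≠ 0) (hZ : IsPrimitiveRoot Z N) (hj0 : j0 < N) {j : ℕ}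
    (hj : j + 1 < N) :
    Ev (VV n) (uj M N Ω Z κ i0 l0 j0 j) ((κ - DD n M i0) * dl j0 j) (-dl j0 j) := by
  have h1 := (ev_ysub (l0 := l0) hn hM hΩ hκ hD hN hZ hj0 (j := j) (by omega)).div
    (ev_ysub (l0 := l0) hn hM hΩ hκ hD hN hZ hj0 hj)
  refine h1.congr ?_ ?_
  · unfold dl
    ring
  · unfold dl
    ring

variable (Ω κ i0 l0) in
/-- The functions `(x - Ω ^ l a_i) / x`. -/
noncomputable def bx (l : ℕ) (i : Fin (m + 1)) (p : Par m) (θ : Fin 1 → ℝ) : ℂ :=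
  (vx Ω κ i0 l0 p θ - Ω ^ l * p.2 i) / vx Ω κ i0 l0 p θ

variable (n κ i0 l0) in
/-- Their exponents. -/
noncomputable def be (l : ℕ) (i : Fin (m + 1)) : ℝ :=
  if i = i0 then (if l = l0 then -κ else 0) else if n i0 < n i then n i - n i0 else 0

variable (i0 l0) in
/-- Their winding numbers. -/
noncomputable def bw (l : ℕ) (i : Fin (m + 1)) : ℝ := if i = i0 ∧ l = l0 then 1 else 0

theorem ev_bx (hn : Function.Injective n) (hM : 0 < M) (hΩ : IsPrimitiveRoot Ω M) (hκ : 0 < κ)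
    (hl0 : l0 < M) {l : ℕ} (hl : l < M) (i : Fin (m + 1)) :
    Ev (VV n) (bx Ω κ i0 l0 l i) (be n κ i0 l0 l i) (bw i0 l0 l i) := by
  have hΩ1 : Ω ^ M = 1 := hΩ.pow_eq_one
  have hΩ0 : Ω ≠ 0 := Ω_ne hM hΩ1
  have hx := ev_vx (n := n) (i0 := i0) (l0 := l0) hM hΩ1 hκ
  have hw := evSm_wf (n := n) hκ
  by_cases hi : i = i0
  · subst hi
    have hbe : be n κ i l0 l i = if l = l0 then -κ else 0 := if_pos rfl
    rw [hbe]
    by_cases h : l = l0
    · subst h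
      have hbw : bw i l l i = 1 := if_pos ⟨rfl, rfl⟩
      rw [if_pos rfl, hbw]
      refine Ev.congr' (((ev_wf n κ).div hw.near).congr (sub_zero _) (sub_zero _)) ?_
      refine (hw.near.ne).mono fun s p _ hp h1 θ => ?_
      have hne := par_ne hp i
      have hΩl : Ω ^ l ≠ 0 := pow_ne_zero _ hΩ0
      have h2 := h1 θ
      unfold bx vx
      field_simp
      ring
    · have hbw : bw i l0 l i = 0 := if_neg fun h' => h h'.2
      rw [if_neg h, hbw]
      have hne : Ω ^ l0 - Ω ^ l ≠ 0 := by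
        intro h0
        exact h (hΩ.pow_inj hl hl0 (sub_eq_zero.1 h0).symm)
      have h1 := (ev_const_add (evSm_const_mul hw (Ω ^ l0)) hne).div
        ((ev_const (V := VV n) (pow_ne_zero l0 hΩ0)).mul hw.near)
      refine Ev.congr' (h1.congr (by ring) (by ring)) ?_
      refine (hw.near.ne).mono fun s p _ hp h1 θ => ?_
      have hne := par_ne hp i
      have hΩl : Ω ^ l0 ≠ 0 := pow_ne_zero _ hΩ0
      have h2 := h1 θ
      unfold bx vx
      field_simp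
      ring
  · have h1 := ((ev_const (V := VV n) (pow_ne_zero l hΩ0)).mul (ev_par (n := n) i)).div hx
    have h0 : Ev (VV n) (fun (_ : Par m) (_ : Fin 1 → ℝ) => (1 : ℂ)) 0 0 :=
      ev_const one_ne_zero
    have hbe : be n κ i0 l0 l i = if n i0 < n i then n i - n i0 else 0 := if_neg hi
    have hbw : bw i0 l0 l i = 0 := if_neg fun h' => hi h'.1
    rw [hbe, hbw]
    have heq : Late (VV n) fun _ p => ∀ θ, 1 - Ω ^ l * p.2 i / vx Ω κ i0 l0 p θ =
        bx Ω κ i0 l0 l i p θ := by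
      refine hx.ne.mono fun s p _ hp h1 θ => ?_
      unfold bx
      rw [sub_div, div_self (h1 θ)]
    rcases lt_or_gt_of_ne (fun h => hi (hn h)) with h | h
    · rw [if_neg (not_lt.2 h.le)]
      exact Ev.congr' (h0.sub_of_lt h1 (by linarith)) heq
    · rw [if_pos h]
      exact Ev.congr' ((h0.sub_of_gt h1 (by linarith)).congr (by ring) (by ring)) heq

variable (n M i0 l0) in
/-- The limit of the regulators. -/
noncomputable def cc (l : ℕ) (i : Fin (m + 1)) : ℝ :=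
  if i = i0 then (if l = l0 then -DD n M i0 else 0) else if n i0 < n i then n i - n i0 else 0

theorem cc_eq (l : ℕ) (i : Fin (m + 1)) (x : ℝ) :
    (κ - DD n M i0) * x * bw i0 l0 l i - -x * be n κ i0 l0 l i = x * cc n M i0 l0 l i := by
  unfold bw be cc
  by_cases hi : i = i0
  · by_cases hl : l = l0
    · rw [if_pos ⟨hi, hl⟩, if_pos hi, if_pos hl, if_pos hi, if_pos hl]
      ring
    · rw [if_neg (fun h => hl h.2), if_pos hi, if_neg hl, if_pos hi, if_neg hl]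
      ring
  · rw [if_neg (fun h => hi h.1), if_neg hi, if_neg hi]
    split_ifs <;> ring

theorem late_reg (hn : Function.Injective n) (hM : 0 < M) (hΩ : IsPrimitiveRoot Ω M) (hκ : 0 < κ)
    (hD : κ < DD n M i0) (hN : N ≠ 0) (hZ : IsPrimitiveRoot Z N) (hj0 : j0 < N) (hl0 : l0 < M)
    {j : ℕ} (hj : j + 1 < N) {l : ℕ} (hl : l < M) (i : Fin (m + 1)) {δ : ℝ} (hδ : 0 < δ) :
    Late (VV n) fun s p =>
      |pairing ![uj M N Ω Z κ i0 l0 j0 j p, bx Ω κ i0 l0 l i p] / s -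
        2 * Real.pi * (dl j0 j * cc n M i0 l0 l i)| ≤ δ := by
  rw [← cc_eq (κ := κ)]
  exact ev_pairing (ev_uj (l0 := l0) hn hM hΩ.pow_eq_one hκ hD hN hZ hj0 hj)
    (ev_bx (i0 := i0) hn hM hΩ hκ hl0 hl i) hδ

end Pool.Agent.L7h9.MS
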