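import Pool.Agent.L7h9.MS.Ring
import Pool.Agent.L7h9.MS.Loop
set_option autoImplicit false

/-!
The loops in the complex points of the curves.
-/

namespace Pool.Agent.L7h9.MS

open Pool.Agent.TH826.MK

open Pool.Agent.L7h9.FR (Par VV Late Ev wf)

open Pool.Agent.N65.TL (good_inv)

variable {m : ℕ} (M N : ℕ) (Ω Z : ℂ) (κ : ℝ) (i0 : Fin (m + 1)) (l0 j0 : ℕ)

/-- The values of the generators on the loop. -/
noncomputable def vals (p : Par m) (θ : Fin 1 → ℝ) : Gn → ℂ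
  | Gn.x => vx Ω κ i0 l0 p θ
  | Gn.x' => (vx Ω κ i0 l0 p θ)⁻¹
  | Gn.y => vy M N Ω Z κ i0 l0 j0 p θ

/-- The properties of the functions on the loop which are needed. -/
structure Nice (p : Par m) : Prop where
  x : Good (vx Ω κ i0 l0 p) ∧ Per (vx Ω κ i0 l0 p)
  y : Good (vy M N Ω Z κ i0 l0 j0 p) ∧ Per (vy M N Ω Z κ i0 l0 j0 p)
  eq : ∀ θ, (1 - vy M N Ω Z κ i0 l0 j0 p θ ^ N) * ff M Ω κ i0 l0 p θ = 1

variable {M N Ω Z κ i0 l0 j0} {n : Fin (m + 1) → ℝ}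

theorem late_nice (hn : Function.Injective n) (hM : 0 < M) (hΩ : Ω ^ M = 1) (hκ : 0 < κ)
    (hD : κ < DD n M i0) (hN : N ≠ 0) (hZ : Z ^ N = 1) :
    Late (VV n) fun _ p => Nice M N Ω Z κ i0 l0 j0 p := by
  have hZ0 : Z ≠ 0 := by
    rintro rfl
    rw [zero_pow hN] at hZ
    exact zero_ne_one hZ
  have h1 := (ev_vx (n := n) (i0 := i0) (l0 := l0) hM hΩ hκ).good
  have h2 := (ev_vy (n := n) (i0 := i0) (l0 := l0) (j0 := j0) hn hM hΩ hκ hD hN hZ0).good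
  have h3 := late_eq (n := n) (i0 := i0) (l0 := l0) (j0 := j0) hn hM hΩ hκ hD hN hZ
  exact ((h1.and h2).and h3).mono fun s p _ _ hp => ⟨hp.1.1, hp.1.2, hp.2⟩

variable {p : Par m}

theorem Nice.vals_smooth (h : Nice M N Ω Z κ i0 l0 j0 p) (g : Gn) :
    ContDiff ℝ 2 fun θ => vals M N Ω Z κ i0 l0 j0 p θ g := by
  cases g with
  | x => exact h.x.1.smooth
  | x' => exact (good_inv h.x.1).smooth
  | y => exact h.y.1.smooth

theorem Nice.vals_periodic (h : Nice M N Ω Z κ i0 l0 j0 p) (θ : Fin 1 → ℝ) (t : Fin 1) :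
    vals M N Ω Z κ i0 l0 j0 p (θ + Pi.single t 1) = vals M N Ω Z κ i0 l0 j0 p θ := by
  have hx := h.x.2 θ t
  have hy := h.y.2 θ t
  funext g
  cases g with
  | x => exact hx
  | x' =>
    show (vx Ω κ i0 l0 p (θ + Pi.single t 1))⁻¹ = (vx Ω κ i0 l0 p θ)⁻¹
    rw [hx]
  | y => exact hy

variable {K : Type*} [Field K] {a : Fin (m + 1) → Kˣ} {σ : K →+* ℂ}

theorem Nice.eval_rel (h : Nice M N Ω Z κ i0 l0 j0 p) (hp : ∀ i, p.2 i = σ (a i))
    (θ : Fin 1 → ℝ) (r : Rl) :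
    MvPolynomial.eval₂ σ (vals M N Ω Z κ i0 l0 j0 p θ) (rel M N a r) = 0 := by
  cases r with
  | inv =>
    unfold rel
    rw [MvPolynomial.eval₂_sub, MvPolynomial.eval₂_mul, MvPolynomial.eval₂_X,
      MvPolynomial.eval₂_X, MvPolynomial.eval₂_one]
    show vx Ω κ i0 l0 p θ * (vx Ω κ i0 l0 p θ)⁻¹ - 1 = 0
    rw [mul_inv_cancel₀ (h.x.1.ne_zero θ), sub_self]
  | curve =>
    unfold rel
    simp only [MvPolynomial.eval₂_sub, MvPolynomial.eval₂_mul, MvPolynomial.eval₂_pow,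
      MvPolynomial.eval₂_one, MvPolynomial.eval₂_X, MvPolynomial.eval₂_prod,
      MvPolynomial.eval₂_C]
    have h1 := h.eq θ
    have h2 : ∀ i, σ (((a i)⁻¹ : Kˣ) : K) * vx Ω κ i0 l0 p θ = vx Ω κ i0 l0 p θ / p.2 i := by
      intro i
      rw [hp i, Units.val_inv_eq_inv_val, map_inv₀, div_eq_inv_mul]
    show (1 - vy M N Ω Z κ i0 l0 j0 p θ ^ N) *
      ∏ i, (1 - (σ (((a i)⁻¹ : Kˣ) : K) * vx Ω κ i0 l0 p θ) ^ M) - 1 = 0
    simp only [h2]
    unfold ff ph at h1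
    rw [h1, sub_self]

/-- The loops. -/
theorem Nice.exists_loop {ζ ω : K} (hζ : ζ ^ N = 1) (hω : ω ^ M = 1)
    (h : Nice M N (σ ω) (σ ζ) κ i0 l0 j0 p) (hp : ∀ i, p.2 i = σ (a i)) :
    ∃ Γ : Torus (CR M N a) 1, (∀ θ x, Γ.e θ (cst M N a x) = σ x) ∧
      (∀ θ, Γ.e θ (gx M N a Gn.y) ≠ 0) ∧
      ∀ q : Fin (N - 1) × Fin M × Fin (m + 1), Γ.reg (cl M a hζ hω q) =
        pairing ![uj M N (σ ω) (σ ζ) κ i0 l0 j0 q.1 p, bx (σ ω) κ i0 l0 q.2.1 q.2.2 p] := by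
  set Γ := lp σ (vals M N (σ ω) (σ ζ) κ i0 l0 j0 p) h.vals_smooth h.vals_periodic
    (h.eval_rel hp) with hΓ
  have hcst : ∀ θ x, Γ.e θ (cst M N a x) = σ x := fun θ x => pt_cst σ _ (h.eval_rel hp θ) x
  have hgx : ∀ θ g, Γ.e θ (gx M N a g) = vals M N (σ ω) (σ ζ) κ i0 l0 j0 p θ g :=
    fun θ g => pt_gx σ _ (h.eval_rel hp θ) g
  refine ⟨Γ, hcst, fun θ => ?_, fun q => ?_⟩
  · rw [hgx]
    exact h.y.1.ne_zero θ
  · obtain ⟨j, l, i⟩ := q
    unfold cl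
    rw [Torus.reg_symb]
    unfold Torus.pair
    congr 1
    funext t
    fin_cases t
    · funext θ
      show Γ.e θ ((uy hζ j / uy hζ (j + 1) : (CR M N a)ˣ) : CR M N a) =
        uj M N (σ ω) (σ ζ) κ i0 l0 j0 j p θ
      have e1 : ((uy hζ j / uy hζ (j + 1) : (CR M N a)ˣ) : CR M N a) *
          (gx M N a Gn.y - cst M N a (ζ ^ ((j : ℕ) + 1))) =
            gx M N a Gn.y - cst M N a (ζ ^ (j : ℕ)) := by
        have e2 : gx M N a Gn.y - cst M N a (ζ ^ ((j : ℕ) + 1)) =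
            ((uy hζ (j + 1) : (CR M N a)ˣ) : CR M N a) := rfl
        rw [e2, ← Units.val_mul, div_mul_cancel]
        rfl
      have e2 := congrArg (Γ.e θ) e1
      rw [map_mul, map_sub, map_sub, hgx, hcst, hcst, map_pow, map_pow] at e2
      have e3 : Γ.e θ (gx M N a Gn.y - cst M N a (ζ ^ ((j : ℕ) + 1))) ≠ 0 :=
        ((isUnit_y hζ ((j : ℕ) + 1)).map (Γ.e θ)).ne_zero
      rw [map_sub, hgx, hcst, map_pow] at e3
      unfold uj
      exact (eq_div_iff e3).2 e2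
    · funext θ
      show Γ.e θ ((ua hω l i / ux M N a : (CR M N a)ˣ) : CR M N a) =
        bx (σ ω) κ i0 l0 l i p θ
      have e1 : ((ua hω l i / ux M N a : (CR M N a)ˣ) : CR M N a) * gx M N a Gn.x =
            gx M N a Gn.x - cst M N a (ω ^ (l : ℕ) * a i) := by
        have e2 : gx M N a Gn.x = ((ux M N a : (CR M N a)ˣ) : CR M N a) := rfl
        rw [e2, ← Units.val_mul, div_mul_cancel]
        rfl
      have e2 := congrArg (Γ.e θ) e1
      rw [map_mul, map_sub, hgx, hcst, map_mul, map_pow] at e2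
      unfold bx
      rw [eq_div_iff (h.x.1.ne_zero θ), hp i]
      exact e2

end Pool.Agent.L7h9.MS
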