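import Pool.Agent.TH826.MK.Torus
import Pool.Agent.TH826.MK.Milnor
import Pool.Agent.TH826.MK.Variety
set_option autoImplicit false

/-!
The coordinate rings of the curves `(1 - y ^ N) ∏ (1 - (x / a_i) ^ M) = 1`, `x ≠ 0`, the classes
`{(y - ζ ^ j) / (y - ζ ^ (j + 1)), (x - ω ^ l a_i) / x}`, and their unramifiedness.
-/

namespace Pool.Agent.L7h9.MS

open scoped WithZero

open Pool.Agent.TH826.MK

/-- The generators of the coordinate ring: `x`, `1 / x` and `y`. -/
inductive Gn : Type
  | x : Gn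
  | x' : Gn
  | y : Gn

/-- The indices of the relations of the coordinate ring. -/
inductive Rl : Type
  | inv : Rl
  | curve : Rl

variable {K : Type*} [Field K] {m : ℕ}

open MvPolynomial in
/-- The relations of the coordinate ring: `x (1 / x) = 1` and
`(1 - y ^ N) ∏ (1 - (x / a_i) ^ M) = 1`. -/
noncomputable def rel (M N : ℕ) (a : Fin (m + 1) → Kˣ) : Rl → MvPolynomial Gn K
  | Rl.inv => X Gn.x * X Gn.x' - 1
  | Rl.curve => (1 - X Gn.y ^ N) * (∏ i, (1 - (C (((a i)⁻¹ : Kˣ) : K) * X Gn.x) ^ M)) - 1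

/-- The coordinate ring of the open part `x ≠ 0` of the curve. -/
def CR (M N : ℕ) (a : Fin (m + 1) → Kˣ) : Type _ :=
  MvPolynomial Gn K ⧸ Ideal.span (Set.range (rel M N a))

noncomputable instance (M N : ℕ) (a : Fin (m + 1) → Kˣ) : CommRing (CR M N a) :=
  inferInstanceAs (CommRing (MvPolynomial Gn K ⧸ Ideal.span (Set.range (rel M N a))))

variable (M N : ℕ) (a : Fin (m + 1) → Kˣ)

/-- The class of a polynomial. -/
noncomputable def mk : MvPolynomial Gn K →+* CR M N a := Ideal.Quotient.mk _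

/-- The constants. -/
noncomputable def cst : K →+* CR M N a := (mk M N a).comp MvPolynomial.C

/-- The generators in the coordinate ring. -/
noncomputable def gx (g : Gn) : CR M N a := mk M N a (MvPolynomial.X g)

theorem mk_surjective : Function.Surjective (mk M N a) := Ideal.Quotient.mk_surjective

theorem mk_rel (r : Rl) : mk M N a (rel M N a r) = 0 :=
  Ideal.Quotient.eq_zero_iff_mem.2 (Ideal.subset_span ⟨r, rfl⟩)

theorem gx_x : gx M N a Gn.x * gx M N a Gn.x' = 1 := by
  have h := mk_rel M N a Rl.inv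
  unfold rel at h
  rw [map_sub, map_mul, map_one, sub_eq_zero] at h
  exact h

theorem gx_curve : (1 - gx M N a Gn.y ^ N) *
    ∏ i, (1 - (cst M N a (((a i)⁻¹ : Kˣ) : K) * gx M N a Gn.x) ^ M) = 1 := by
  have h := mk_rel M N a Rl.curve
  unfold rel at h
  simp only [map_sub, map_mul, map_one, map_prod, map_pow] at h
  rw [sub_eq_zero] at h
  exact h

/-- The unit `x`. -/
noncomputable def ux : (CR M N a)ˣ :=
  ⟨gx M N a Gn.x, gx M N a Gn.x', gx_x M N a, (mul_comm _ _).trans (gx_x M N a)⟩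

variable {M N a}

theorem isUnit_y {ζ : K} (hζ : ζ ^ N = 1) (j : ℕ) :
    IsUnit (gx M N a Gn.y - cst M N a (ζ ^ j)) := by
  have h1 : IsUnit (1 - gx M N a Gn.y ^ N) := IsUnit.of_mul_eq_one _ (gx_curve M N a)
  have h2 := sub_dvd_pow_sub_pow (gx M N a Gn.y) (cst M N a (ζ ^ j)) N
  have h3 : cst M N a (ζ ^ j) ^ N = 1 := by
    rw [← map_pow, ← pow_mul, mul_comm, pow_mul, hζ, one_pow, map_one]
  rw [h3] at h2
  refine isUnit_of_dvd_unit h2 ?_
  rw [← neg_sub]
  exact h1.neg

theorem isUnit_x {ω : K} (hω : ω ^ M = 1) (l : ℕ) (i : Fin (m + 1)) :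
    IsUnit (gx M N a Gn.x - cst M N a (ω ^ l * a i)) := by
  have h1 : IsUnit (∏ i, (1 - (cst M N a (((a i)⁻¹ : Kˣ) : K) * gx M N a Gn.x) ^ M)) :=
    IsUnit.of_mul_eq_one_right _ (gx_curve M N a)
  have h2 : IsUnit (1 - (cst M N a (((a i)⁻¹ : Kˣ) : K) * gx M N a Gn.x) ^ M) :=
    isUnit_of_dvd_unit (Finset.dvd_prod_of_mem
      (fun i => 1 - (cst M N a (((a i)⁻¹ : Kˣ) : K) * gx M N a Gn.x) ^ M)
      (Finset.mem_univ i)) h1
  have h3 := sub_dvd_pow_sub_pow (cst M N a (((a i)⁻¹ : Kˣ) : K) * gx M N a Gn.x)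
    (cst M N a (ω ^ l)) M
  have h4 : cst M N a (ω ^ l) ^ M = 1 := by
    rw [← map_pow, ← pow_mul, mul_comm, pow_mul, hω, one_pow, map_one]
  rw [h4] at h3
  have h5 : IsUnit (cst M N a (((a i)⁻¹ : Kˣ) : K) * gx M N a Gn.x - cst M N a (ω ^ l)) := by
    refine isUnit_of_dvd_unit h3 ?_
    rw [← neg_sub]
    exact h2.neg
  have h6 : gx M N a Gn.x - cst M N a (ω ^ l * a i) = cst M N a (a i) *
      (cst M N a (((a i)⁻¹ : Kˣ) : K) * gx M N a Gn.x - cst M N a (ω ^ l)) := by
    rw [mul_sub, ← mul_assoc, ← map_mul, Units.mul_inv, map_one, one_mul, ← map_mul,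
      mul_comm (a i : K)]
  rw [h6]
  exact ((a i).isUnit.map (cst M N a)).mul h5

/-- The unit `y - ζ ^ j`. -/
noncomputable def uy {ζ : K} (hζ : ζ ^ N = 1) (j : ℕ) : (CR M N a)ˣ := (isUnit_y hζ j).unit

/-- The unit `x - ω ^ l a_i`. -/
noncomputable def ua {ω : K} (hω : ω ^ M = 1) (l : ℕ) (i : Fin (m + 1)) : (CR M N a)ˣ :=
  (isUnit_x hω l i).unit

variable (M a)

/-- The class `{(y - ζ ^ j) / (y - ζ ^ (j + 1)), (x - ω ^ l a_i) / x}`. -/
noncomputable def cl {ζ ω : K} (hζ : ζ ^ N = 1) (hω : ω ^ M = 1)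
    (q : Fin (N - 1) × Fin M × Fin (m + 1)) : KQ (CR M N a) 2 :=
  symb ![uy hζ q.1 / uy hζ (q.1 + 1), ua hω q.2.1 q.2.2 / ux M N a]

variable {M a}

section points

variable {S : Type*} [CommRing S]

/-- The points. -/
noncomputable def pt (φ : K →+* S) (v : Gn → S)
    (h : ∀ r, MvPolynomial.eval₂ φ v (rel M N a r) = 0) : CR M N a →+* S :=
  Ideal.Quotient.lift _ (MvPolynomial.eval₂Hom φ v) (by
    intro b hb
    have h1 : Ideal.span (Set.range (rel M N a)) ≤ RingHom.ker (MvPolynomial.eval₂Hom φ v) := by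
      rw [Ideal.span_le]
      rintro _ ⟨r, rfl⟩
      exact h r
    exact h1 hb)

theorem pt_mk (φ : K →+* S) (v : Gn → S)
    (h : ∀ r, MvPolynomial.eval₂ φ v (rel M N a r) = 0) (P : MvPolynomial Gn K) :
    pt φ v h (mk M N a P) = MvPolynomial.eval₂ φ v P := Ideal.Quotient.lift_mk _ _ _

theorem pt_gx (φ : K →+* S) (v : Gn → S)
    (h : ∀ r, MvPolynomial.eval₂ φ v (rel M N a r) = 0) (g : Gn) :
    pt φ v h (gx M N a g) = v g := by
  unfold gx
  rw [pt_mk, MvPolynomial.eval₂_X]

theorem pt_cst (φ : K →+* S) (v : Gn → S)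
    (h : ∀ r, MvPolynomial.eval₂ φ v (rel M N a r) = 0) (x : K) :
    pt φ v h (cst M N a x) = φ x := by
  unfold cst
  rw [RingHom.comp_apply, pt_mk, MvPolynomial.eval₂_C]

theorem pt_congr (φ : K →+* S) {v v' : Gn → S}
    (h : ∀ r, MvPolynomial.eval₂ φ v (rel M N a r) = 0)
    (h' : ∀ r, MvPolynomial.eval₂ φ v' (rel M N a r) = 0) (e : v = v') :
    pt φ v h = pt φ v' h' := by
  subst e
  rfl

end points

section loops

theorem smooth_eval {d : ℕ} (σ : K →+* ℂ) {v : (Fin d → ℝ) → Gn → ℂ}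
    (hv : ∀ g, ContDiff ℝ 2 fun θ => v θ g) (P : MvPolynomial Gn K) :
    ContDiff ℝ 2 fun θ => MvPolynomial.eval₂ σ (v θ) P := by
  induction P using MvPolynomial.induction_on with
  | C a =>
    simp only [MvPolynomial.eval₂_C]
    exact contDiff_const
  | add p q hp hq =>
    simp only [MvPolynomial.eval₂_add]
    exact hp.add hq
  | mul_X p g hp =>
    simp only [MvPolynomial.eval₂_mul, MvPolynomial.eval₂_X]
    exact hp.mul (hv g)

/-- The loops. -/
noncomputable def lp {d : ℕ} (σ : K →+* ℂ) (v : (Fin d → ℝ) → Gn → ℂ)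
    (hv : ∀ g, ContDiff ℝ 2 fun θ => v θ g) (hp : ∀ θ i, v (θ + Pi.single i 1) = v θ)
    (h : ∀ θ r, MvPolynomial.eval₂ σ (v θ) (rel M N a r) = 0) : Torus (CR M N a) d where
  e θ := pt σ (v θ) (h θ)
  smooth b := by
    obtain ⟨p, rfl⟩ := mk_surjective M N a b
    simp only [pt_mk]
    exact smooth_eval σ hv p
  periodic θ i := pt_congr σ _ _ (hp θ i)

end loops

section unramified

variable {L : Type*} [Field L]

theorem prod_eq_one {ι : Type*} [Fintype ι] {g : ι → ℤᵐ⁰} (h : ∀ i, g i ≤ 1)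
    (h1 : ∏ i, g i = 1) (i : ι) : g i = 1 := by
  classical
  refine le_antisymm (h i) ?_
  by_contra hlt
  rw [not_le] at hlt
  rw [← Finset.mul_prod_erase _ _ (Finset.mem_univ i)] at h1
  have h2 : ∏ j ∈ Finset.univ.erase i, g j ≤ 1 := Finset.prod_le_one' fun j _ => h j
  have h3 := mul_lt_one_of_nonneg_of_lt_one_left zero_le hlt h2
  rw [h1] at h3
  exact lt_irrefl _ h3

/-- The class in a field with a valuation. -/
theorem mem_unitPart_ms (v : Valuation L ℤᵐ⁰) {x y : L} {ζ ω : L} (hζ : ζ ^ N = 1)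
    (hω : ω ^ M = 1) (hM : 0 < M) (hN : 0 < N) {b : Fin (m + 1) → L} (hb : ∀ i, v (b i) = 1)
    (hx : x ≠ 0) (heq : (1 - y ^ N) * ∏ i, (1 - ((b i)⁻¹ * x) ^ M) = 1) (j l : ℕ)
    (i : Fin (m + 1)) {u w : Lˣ} (hu : (u : L) * (y - ζ ^ (j + 1)) = y - ζ ^ j)
    (hw : (w : L) * x = x - ω ^ l * b i) : symb ![u, w] ∈ unitPart v 2 := by
  have hvζ : v ζ = 1 := by
    have h1 := congrArg v hζ
    rw [map_pow, map_one] at h1
    exact (pow_eq_one_iff_of_nonneg zero_le hN.ne').1 h1
  have hvω : v ω = 1 := by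
    have h1 := congrArg v hω
    rw [map_pow, map_one] at h1
    exact (pow_eq_one_iff_of_nonneg zero_le hM.ne').1 h1
  have hζ0 : ζ ≠ 0 := by
    rintro rfl
    rw [map_zero] at hvζ
    exact zero_ne_one hvζ
  have hvζj : ∀ j : ℕ, v (ζ ^ j) = 1 := fun j => by rw [map_pow, hvζ, one_pow]
  have hva : v (ω ^ l * b i) = 1 := by rw [map_mul, map_pow, hvω, one_pow, hb, one_mul]
  have hb0 : ∀ i, b i ≠ 0 := fun i h => by
    have := hb i
    rw [h, map_zero] at this
    exact zero_ne_one this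
  have hvt : ∀ i, v (((b i)⁻¹ * x) ^ M) = v x ^ M := fun i => by
    rw [map_pow, map_mul, map_inv₀, hb, inv_one, one_mul]
  have hne1 : 1 - y ^ N ≠ 0 := left_ne_zero_of_mul_eq_one heq
  have hnej : ∀ j : ℕ, y - ζ ^ j ≠ 0 := by
    intro j h0
    apply hne1
    have h1 : y = ζ ^ j := sub_eq_zero.1 h0
    rw [h1, ← pow_mul, mul_comm, pow_mul, hζ, one_pow, sub_self]
  have hu' : (u : L) = (y - ζ ^ j) / (y - ζ ^ (j + 1)) := by
    rw [eq_div_iff (hnej _), hu]
  have hw' : (w : L) = (x - ω ^ l * b i) / x := by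
    rw [eq_div_iff hx, hw]
  have hvx0 : 0 < v x := zero_lt_iff.2 ((Valuation.ne_zero_iff v).2 hx)
  rcases lt_trichotomy (v x) 1 with hvx | hvx | hvx
  · -- `x` is small, so `y` is small
    refine mem_unitPart_of_pow v 0 _ (m := N) hN.ne' ?_
    show v ((u : L) ^ N - 1) < 1
    have hsmall : ∀ i, v (((b i)⁻¹ * x) ^ M) < 1 := fun i => by
      rw [hvt]
      exact pow_lt_one₀ zero_le hvx hM.ne'
    have hprod : ∀ s : Finset (Fin (m + 1)), v (∏ i ∈ s, (1 - ((b i)⁻¹ * x) ^ M) - 1) < 1 := by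
      classical
      intro s
      induction s using Finset.induction_on with
      | empty =>
        rw [Finset.prod_empty, sub_self, map_zero]
        exact zero_lt_one
      | insert i s hi ih =>
        rw [Finset.prod_insert hi]
        have e : (1 - ((b i)⁻¹ * x) ^ M) * ∏ i ∈ s, (1 - ((b i)⁻¹ * x) ^ M) - 1 =
            (∏ i ∈ s, (1 - ((b i)⁻¹ * x) ^ M) - 1) -
              ((b i)⁻¹ * x) ^ M * ∏ i ∈ s, (1 - ((b i)⁻¹ * x) ^ M) := by ring
        rw [e]
        refine Valuation.map_sub_lt v ih ?_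
        rw [map_mul, val_one_of_sub_one ih, mul_one]
        exact hsmall i
    have hf := hprod Finset.univ
    have hf1 := val_one_of_sub_one hf
    have hyN : v (y ^ N) < 1 := by
      have e : y ^ N * ∏ i, (1 - ((b i)⁻¹ * x) ^ M) =
          ∏ i, (1 - ((b i)⁻¹ * x) ^ M) - 1 := by linear_combination -heq
      have e2 := congrArg v e
      rw [map_mul, hf1, mul_one] at e2
      rw [e2]
      exact hf
    have hy : v y < 1 := by
      by_contra hge
      rw [not_lt] at hge
      rw [map_pow] at hyN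
      exact absurd (one_le_pow₀ hge) (not_le.2 hyN)
    have hyj : ∀ j : ℕ, v (y - ζ ^ j) = 1 := fun j => by
      rw [Valuation.map_sub_eq_of_lt_right v (by rw [hvζj]; exact hy), hvζj]
    have hd : v ((y - ζ ^ j) ^ N - (y - ζ ^ (j + 1)) ^ N) < 1 := by
      have hone : ∀ j : ℕ, v ((y - ζ ^ j) ^ N - (-1) ^ N) < 1 := by
        intro j
        have e1 := sub_dvd_pow_sub_pow (y - ζ ^ j) (-(ζ ^ j)) N
        have e2 : y - ζ ^ j - -(ζ ^ j) = y := by ring
        rw [e2] at e1
        obtain ⟨c, hc⟩ := e1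
        have e3 : (-(ζ ^ j)) ^ N = (-1) ^ N := by
          rw [neg_pow, ← pow_mul, mul_comm j N, pow_mul, hζ, one_pow, mul_one]
        rw [e3] at hc
        have e4 : (y - ζ ^ j) ^ N - (-1) ^ N = ∑ t ∈ Finset.range N,
            (y - ζ ^ j) ^ t * (-(ζ ^ j)) ^ (N - 1 - t) * y := by
          have e5 := Commute.geom_sum₂_mul (Commute.all (y - ζ ^ j) (-(ζ ^ j))) N
          rw [e2, e3] at e5
          rw [← e5, Finset.sum_mul]
        rw [e4]
        refine Valuation.map_sum_lt v one_ne_zero fun t _ => ?_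
        rw [map_mul, map_mul, map_pow, map_pow, hyj, Valuation.map_neg, hvζj, one_pow, one_pow,
          one_mul, one_mul]
        exact hy
      have e : (y - ζ ^ j) ^ N - (y - ζ ^ (j + 1)) ^ N = ((y - ζ ^ j) ^ N - (-1) ^ N) -
          ((y - ζ ^ (j + 1)) ^ N - (-1) ^ N) := by ring
      rw [e]
      exact Valuation.map_sub_lt v (hone j) (hone (j + 1))
    have e : (u : L) ^ N - 1 =
        ((y - ζ ^ j) ^ N - (y - ζ ^ (j + 1)) ^ N) / (y - ζ ^ (j + 1)) ^ N := by
      rw [hu', div_pow, sub_div, div_self (pow_ne_zero _ (hnej _))]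
    rw [e, map_div₀, map_pow, hyj, one_pow, div_one]
    exact hd
  · -- `x` is a unit
    have ht1 : ∀ i, v (1 - ((b i)⁻¹ * x) ^ M) ≤ 1 := fun i => by
      refine Valuation.map_sub_le (v := v) (g := 1) (by rw [map_one]) ?_
      rw [hvt, hvx, one_pow]
    have hfle : v (∏ i, (1 - ((b i)⁻¹ * x) ^ M)) ≤ 1 := by
      rw [map_prod]
      exact Finset.prod_le_one' fun i _ => ht1 i
    have hmul := congrArg v heq
    rw [map_mul, map_one] at hmul
    rcases hfle.lt_or_eq with hf | hf
    · -- `y` is large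
      have hbig : 1 < v (1 - y ^ N) := by
        by_contra hle
        rw [not_lt] at hle
        have := mul_lt_one_of_nonneg_of_lt_one_right hle zero_le hf
        rw [hmul] at this
        exact lt_irrefl _ this
      have hy : 1 < v y := by
        by_contra hle
        rw [not_lt] at hle
        have : v (1 - y ^ N) ≤ 1 := by
          refine Valuation.map_sub_le (v := v) (g := 1) (by rw [map_one]) ?_
          rw [map_pow]
          exact pow_le_one₀ zero_le hle
        exact absurd hbig (not_lt.2 this)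
      refine mem_unitPart_of_oneUnit' v 0 _ ?_
      show v ((u : L) - 1) < 1
      have hyj : ∀ j : ℕ, v (y - ζ ^ j) = v y := fun j => by
        rw [Valuation.map_sub_eq_of_lt_left v (by rw [hvζj]; exact hy)]
      have e : (u : L) - 1 = (ζ ^ (j + 1) - ζ ^ j) / (y - ζ ^ (j + 1)) := by
        rw [hu', div_sub_one (hnej _)]
        congr 1
        ring
      rw [e, map_div₀, hyj]
      have h2 : v (ζ ^ (j + 1) - ζ ^ j) ≤ 1 :=
        Valuation.map_sub_le (v := v) (g := 1) (hvζj _).le (hvζj _).le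
      rw [div_lt_iff₀ (zero_lt_one.trans hy), one_mul]
      exact h2.trans_lt hy
    · -- all functions are units
      have h1 : v (1 - y ^ N) = 1 := by
        rw [hf, mul_one] at hmul
        exact hmul
      have hy : v y ≤ 1 := by
        by_contra hle
        rw [not_le] at hle
        have h2 : 1 < v (y ^ N) := by
          rw [map_pow]
          exact one_lt_pow₀ hle hN.ne'
        have h3 : v (1 - y ^ N) = v (y ^ N) :=
          Valuation.map_sub_eq_of_lt_right v (by rw [map_one]; exact h2)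
        rw [h1] at h3
        rw [← h3] at h2
        exact lt_irrefl _ h2
      have hunit : ∀ {c d : L}, v c ≤ 1 → v d ≤ 1 → v (c * d) = 1 → v c = 1 := by
        intro c d hc hd hcd
        refine le_antisymm hc ?_
        by_contra hlt
        rw [not_le] at hlt
        have := mul_lt_one_of_nonneg_of_lt_one_left zero_le hlt hd
        rw [← map_mul, hcd] at this
        exact lt_irrefl _ this
      have hyj : ∀ j : ℕ, v (y - ζ ^ j) = 1 := by
        intro j
        have e5 := Commute.geom_sum₂_mul (Commute.all y (ζ ^ j)) N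
        have e3 : (ζ ^ j) ^ N = 1 := by rw [← pow_mul, mul_comm, pow_mul, hζ, one_pow]
        rw [e3, mul_comm] at e5
        refine hunit (d := ∑ t ∈ Finset.range N, y ^ t * (ζ ^ j) ^ (N - 1 - t))
          (Valuation.map_sub_le (v := v) (g := 1) hy (hvζj _).le) ?_ ?_
        · refine Valuation.map_sum_le v fun t _ => ?_
          rw [map_mul, map_pow, map_pow, hvζj, one_pow, mul_one]
          exact pow_le_one₀ zero_le hy
        · rw [e5, Valuation.map_sub_swap]
          exact h1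
      have hfi : v (1 - ((b i)⁻¹ * x) ^ M) = 1 := by
        rw [map_prod] at hf
        exact prod_eq_one ht1 hf i
      have hxa : v (x - ω ^ l * b i) = 1 := by
        have e5 := Commute.geom_sum₂_mul (Commute.all ((b i)⁻¹ * x) (ω ^ l)) M
        have e3 : (ω ^ l) ^ M = 1 := by rw [← pow_mul, mul_comm, pow_mul, hω, one_pow]
        rw [e3, mul_comm] at e5
        have hvbx : v ((b i)⁻¹ * x) = 1 := by
          rw [map_mul, map_inv₀, hb, inv_one, one_mul, hvx]
        have hvωl : v (ω ^ l) = 1 := by rw [map_pow, hvω, one_pow]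
        have h6 : v ((b i)⁻¹ * x - ω ^ l) = 1 := by
          refine hunit (d := ∑ t ∈ Finset.range M, ((b i)⁻¹ * x) ^ t * (ω ^ l) ^ (M - 1 - t))
            (Valuation.map_sub_le (v := v) (g := 1) hvbx.le hvωl.le) ?_ ?_
          · refine Valuation.map_sum_le v fun t _ => ?_
            rw [map_mul, map_pow, map_pow, hvbx, hvωl, one_pow, one_pow, one_mul]
          · rw [e5, Valuation.map_sub_swap]
            exact hfi
        have e6 : x - ω ^ l * b i = b i * ((b i)⁻¹ * x - ω ^ l) := by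
          rw [mul_sub, mul_inv_cancel_left₀ (hb0 i), mul_comm (b i)]
        rw [e6, map_mul, hb, h6, one_mul]
      refine Submodule.subset_span ⟨![u, w], fun t => ?_, rfl⟩
      fin_cases t
      · show v (u : L) = 1
        rw [hu', map_div₀, hyj, hyj, div_one]
      · show v (w : L) = 1
        rw [hw', map_div₀, hxa, hvx, div_one]
  · -- `x` is large
    refine mem_unitPart_of_oneUnit' v 1 _ ?_
    show v ((w : L) - 1) < 1
    have e : (w : L) - 1 = -(ω ^ l * b i) / x := by
      rw [hw', div_sub_one hx]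
      congr 1
      ring
    rw [e, map_div₀, Valuation.map_neg, hva, div_lt_iff₀ hvx0, one_mul]
    exact hvx

/-- The classes are unramified if the `a_i` are units of the ring of integers. -/
theorem cl_unramified {ζ ω : K} (hζ : ζ ^ N = 1) (hω : ω ^ M = 1) (hM : 0 < M) (hN : 0 < N)
    (h1 : ∀ i, IsIntegral ℤ (a i : K)) (h2 : ∀ i, IsIntegral ℤ (((a i)⁻¹ : Kˣ) : K))
    (f : CR M N a →+* L) (q : Fin (N - 1) × Fin M × Fin (m + 1)) :
    KQ.map 2 f (cl M a hζ hω q) ∈ Unramified L 2 := by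
  unfold cl
  rw [KQ.map_symb]
  unfold Unramified
  rw [Submodule.mem_iInf]
  intro v
  rw [Submodule.mem_iInf]
  intro _
  obtain ⟨j, l, i⟩ := q
  set ψ : K →+* L := f.comp (cst M N a) with hψ
  have e : (fun t => Units.map (f : CR M N a →* L)
      (![uy hζ j / uy hζ (j + 1), ua hω l i / ux M N a] t)) =
      ![Units.map (f : CR M N a →* L) (uy hζ j / uy hζ (j + 1)),
        Units.map (f : CR M N a →* L) (ua hω l i / ux M N a)] := by
    funext t
    fin_cases t <;> rfl
  show symb (fun t => Units.map (f : CR M N a →* L)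
      (![uy hζ j / uy hζ (j + 1), ua hω l i / ux M N a] t)) ∈ unitPart v 2
  rw [e]
  have hv : ∀ i, v (ψ (a i : K)) = 1 := by
    intro i
    refine le_antisymm (val_le_one_of_integral v (map_isIntegral_int ψ (h1 i))) ?_
    have h3 := val_le_one_of_integral v (map_isIntegral_int ψ (h2 i))
    have h4 : ψ (a i : K) * ψ (((a i)⁻¹ : Kˣ) : K) = 1 := by
      rw [← map_mul, Units.mul_inv, map_one]
    have h5 := congrArg v h4
    rw [map_mul, map_one] at h5
    by_contra hlt
    rw [not_le] at hlt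
    have h6 := mul_lt_one_of_nonneg_of_lt_one_left zero_le hlt h3
    rw [h5] at h6
    exact lt_irrefl _ h6
  refine mem_unitPart_ms (N := N) (M := M) v (x := f (gx M N a Gn.x)) (y := f (gx M N a Gn.y))
    (ζ := ψ ζ) (ω := ψ ω) (b := fun i => ψ (a i : K)) ?_ ?_ hM hN hv ?_ ?_ j l i ?_ ?_
  · rw [← map_pow, hζ, map_one]
  · rw [← map_pow, hω, map_one]
  · exact ((ux M N a).isUnit.map f).ne_zero
  · have h3 := congrArg f (gx_curve M N a)
    simp only [map_sub, map_mul, map_one, map_prod, map_pow] at h3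
    have h4 : ∀ i, (ψ (a i : K))⁻¹ = f (cst M N a (((a i)⁻¹ : Kˣ) : K)) := by
      intro i
      refine inv_eq_of_mul_eq_one_right ?_
      show ψ (a i : K) * ψ (((a i)⁻¹ : Kˣ) : K) = 1
      rw [← map_mul, Units.mul_inv, map_one]
    simp only [h4]
    exact h3
  · have e1 : ((uy hζ j / uy hζ (j + 1) : (CR M N a)ˣ) : CR M N a) *
        (gx M N a Gn.y - cst M N a (ζ ^ ((j : ℕ) + 1))) =
          gx M N a Gn.y - cst M N a (ζ ^ (j : ℕ)) := by
      have e2 : gx M N a Gn.y - cst M N a (ζ ^ ((j : ℕ) + 1)) =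
          ((uy hζ (j + 1) : (CR M N a)ˣ) : CR M N a) := rfl
      rw [e2, ← Units.val_mul, div_mul_cancel]
      rfl
    have e2 := congrArg f e1
    rw [map_mul, map_sub, map_sub] at e2
    have e3 : ∀ t : ℕ, ψ ζ ^ t = f (cst M N a (ζ ^ t)) := fun t => by
      rw [← map_pow]
      rfl
    rw [e3, e3]
    exact e2
  · have e1 : ((ua hω l i / ux M N a : (CR M N a)ˣ) : CR M N a) * gx M N a Gn.x =
          gx M N a Gn.x - cst M N a (ω ^ (l : ℕ) * a i) := by
      have e2 : gx M N a Gn.x = ((ux M N a : (CR M N a)ˣ) : CR M N a) := rfl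
      rw [e2, ← Units.val_mul, div_mul_cancel]
      rfl
    have e2 := congrArg f e1
    rw [map_mul, map_sub] at e2
    have e3 : ψ ω ^ (l : ℕ) * ψ (a i : K) = f (cst M N a (ω ^ (l : ℕ) * a i)) := by
      rw [← map_pow, ← map_mul]
      rfl
    rw [e3]
    exact e2

end unramified

end Pool.Agent.L7h9.MS
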