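import Pool.Agent.L7h9.FR.Loop
set_option autoImplicit false

/-!
Families of small functions: sums, products, geometric sums and roots.
-/

namespace Pool.Agent.L7h9.MS

open Pool.Agent.TH826.MK

open Pool.Agent.N65.TL (good_inv lw_inv lw_zpow)

open Pool.Agent.L7h9.FR

section sm

variable {g h : (Fin 1 → ℝ) → ℂ} {η ε : ℝ}

theorem sm_add (hg : Sm g η) (hh : Sm h ε) : Sm (fun θ => g θ + h θ) (η + ε) := by
  refine ⟨hg.smooth.add hh.smooth, fun θ i => ?_, fun θ => ?_, fun j θ => ?_⟩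
  · rw [hg.per, hh.per]
  · exact (norm_add_le _ _).trans (add_le_add (hg.le θ) (hh.le θ))
  · have h1 : DifferentiableAt ℝ g θ := (hg.smooth.differentiable (by norm_num)) θ
    have h2 : DifferentiableAt ℝ h θ := (hh.smooth.differentiable (by norm_num)) θ
    rw [fderiv_fun_add h1 h2, add_apply]
    exact (norm_add_le _ _).trans (add_le_add (hg.der j θ) (hh.der j θ))

theorem sm_mul (hg : Sm g η) (hh : Sm h ε) : Sm (fun θ => g θ * h θ) (2 * (η * ε)) := by
  have h0 : 0 ≤ η := (norm_nonneg _).trans (hg.le 0)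
  have h0' : 0 ≤ ε := (norm_nonneg _).trans (hh.le 0)
  refine ⟨hg.smooth.mul hh.smooth, fun θ i => ?_, fun θ => ?_, fun j θ => ?_⟩
  · rw [hg.per, hh.per]
  · rw [norm_mul]
    have := mul_le_mul (hg.le θ) (hh.le θ) (norm_nonneg _) h0
    have : 0 ≤ η * ε := mul_nonneg h0 h0'
    linarith
  · have h1 : DifferentiableAt ℝ g θ := (hg.smooth.differentiable (by norm_num)) θ
    have h2 : DifferentiableAt ℝ h θ := (hh.smooth.differentiable (by norm_num)) θ
    rw [fderiv_fun_mul h1 h2, add_apply, smul_apply, smul_apply, smul_eq_mul, smul_eq_mul]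
    refine (norm_add_le _ _).trans ?_
    rw [norm_mul, norm_mul]
    have h3 := mul_le_mul (hg.le θ) (hh.der j θ) (norm_nonneg _) h0
    have h4 := mul_le_mul (hh.le θ) (hg.der j θ) (norm_nonneg _) h0'
    linarith

theorem sm_const_mul (hg : Sm g η) (c : ℂ) : Sm (fun θ => c * g θ) (‖c‖ * η) := by
  refine ⟨contDiff_const.mul hg.smooth, fun θ i => ?_, fun θ => ?_, fun j θ => ?_⟩
  · rw [hg.per]
  · rw [norm_mul]
    exact mul_le_mul_of_nonneg_left (hg.le θ) (norm_nonneg _)
  · have h1 : DifferentiableAt ℝ g θ := (hg.smooth.differentiable (by norm_num)) θ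
    have h2 : (fun θ => c * g θ) = fun θ => c • g θ := rfl
    rw [h2, fderiv_fun_const_smul h1, smul_apply, norm_smul]
    exact mul_le_mul_of_nonneg_left (hg.der j θ) (norm_nonneg _)

end sm

section ev

variable {P : Type*} {V : ℝ → P → Prop} {G H : P → (Fin 1 → ℝ) → ℂ} {a b k l : ℝ}

theorem evSm_add (hG : EvSm V G) (hH : EvSm V H) : EvSm V fun p θ => G p θ + H p θ := by
  intro δ hδ
  have h1 : Late V fun _ p => Sm (G p) (δ / 2) := hG _ (by linarith)
  have h2 : Late V fun _ p => Sm (H p) (δ / 2) := hH _ (by linarith)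
  have h3 : Late V fun _ p => Sm (fun θ => G p θ + H p θ) δ :=
    (h1.and h2).mono fun s p _ _ hp => by
      have := sm_add hp.1 hp.2
      rwa [add_halves] at this
  exact h3

theorem evSm_mul (hG : EvSm V G) (hH : EvSm V H) : EvSm V fun p θ => G p θ * H p θ := by
  intro δ hδ
  have h1 : Late V fun _ p => Sm (G p) (δ / 2) := hG _ (by linarith)
  have h2 : Late V fun _ p => Sm (H p) 1 := hH _ one_pos
  have h3 : Late V fun _ p => Sm (fun θ => G p θ * H p θ) δ :=
    (h1.and h2).mono fun s p _ _ hp => by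
      have := sm_mul hp.1 hp.2
      rwa [mul_one, mul_div_cancel₀ _ two_ne_zero] at this
  exact h3

theorem evSm_const_mul (hG : EvSm V G) (c : ℂ) : EvSm V fun p θ => c * G p θ := by
  intro δ hδ
  have hc : 0 ≤ ‖c‖ := norm_nonneg c
  have h1 : Late V fun _ p => Sm (G p) (δ / (‖c‖ + 1)) := hG _ (by positivity)
  have h3 : Late V fun _ p => Sm (fun θ => c * G p θ) δ :=
    h1.mono fun s p _ _ hp => by
      have h4 := sm_const_mul hp c
      have h5 : ‖c‖ * (δ / (‖c‖ + 1)) ≤ δ := by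
        rw [mul_div_assoc', div_le_iff₀ (by linarith)]
        nlinarith
      exact ⟨h4.smooth, h4.per, fun θ => (h4.le θ).trans h5, fun j θ => (h4.der j θ).trans h5⟩
  exact h3

theorem evSm_zero : EvSm V fun (_ : P) (_ : Fin 1 → ℝ) => (0 : ℂ) := by
  intro δ hδ
  refine ⟨1, le_rfl, fun s _ p _ => ⟨contDiff_const, fun _ _ => rfl, fun θ => ?_, fun j θ => ?_⟩⟩
  · rw [norm_zero]
    exact hδ.le
  · rw [fderiv_fun_const, Pi.zero_apply, zero_apply, norm_zero]
    exact hδ.le

theorem evSm_pow (hG : EvSm V G) (n : ℕ) : EvSm V fun p θ => (1 + G p θ) ^ n - 1 := by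
  induction n with
  | zero =>
    simp only [pow_zero, sub_self]
    exact evSm_zero
  | succ n ih =>
    have h := evSm_add ih (evSm_add hG (evSm_mul ih hG))
    have e : (fun p θ => (1 + G p θ) ^ n - 1 + (G p θ + ((1 + G p θ) ^ n - 1) * G p θ)) =
        fun p θ => (1 + G p θ) ^ (n + 1) - 1 := by
      funext p θ
      ring
    rwa [e] at h

theorem evSm_sum (hG : EvSm V G) (n : ℕ) :
    EvSm V fun p θ => ∑ t ∈ Finset.range n, ((1 + G p θ) ^ t - 1) := by
  induction n with
  | zero =>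
    simp only [Finset.range_zero, Finset.sum_empty]
    exact evSm_zero
  | succ n ih =>
    simp only [Finset.sum_range_succ]
    exact evSm_add ih (evSm_pow hG n)

/-- Geometric sums. -/
theorem ev_geom (hG : EvSm V G) {n : ℕ} (hn : n ≠ 0) :
    Ev V (fun p θ => ∑ t ∈ Finset.range n, (1 + G p θ) ^ t) 0 0 := by
  have hn' : (n : ℂ) ≠ 0 := by exact_mod_cast hn
  have h1 := (ev_const (V := V) hn').mul (evSm_const_mul (evSm_sum hG n) ((n : ℂ)⁻¹)).near
  have e : (fun p θ => (n : ℂ) * (1 + (n : ℂ)⁻¹ *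
      ∑ t ∈ Finset.range n, ((1 + G p θ) ^ t - 1))) =
      fun p θ => ∑ t ∈ Finset.range n, (1 + G p θ) ^ t := by
    funext p θ
    rw [mul_add, mul_one, mul_inv_cancel_left₀ hn', Finset.sum_sub_distrib]
    simp
  rw [e] at h1
  exact h1.congr (add_zero _) (add_zero _)

/-- `c + G` for `c ≠ 0`. -/
theorem ev_const_add (hG : EvSm V G) {c : ℂ} (hc : c ≠ 0) : Ev V (fun p θ => c + G p θ) 0 0 := by
  have h1 := (ev_const (V := V) hc).mul (evSm_const_mul hG c⁻¹).near
  have e : (fun p θ => c * (1 + c⁻¹ * G p θ)) = fun p θ => c + G p θ := by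
    funext p θ
    rw [mul_add, mul_one, mul_inv_cancel_left₀ hc]
  rw [e] at h1
  exact h1.congr (add_zero _) (add_zero _)

/-- Finite products. -/
theorem ev_prod {κ : Type*} [DecidableEq κ] (s : Finset κ) {F : κ → P → (Fin 1 → ℝ) → ℂ}
    {A B : κ → ℝ} (h : ∀ i ∈ s, Ev V (F i) (A i) (B i)) :
    Ev V (fun p θ => ∏ i ∈ s, F i p θ) (∑ i ∈ s, A i) (∑ i ∈ s, B i) := by
  induction s using Finset.induction_on with
  | empty =>
    simp only [Finset.prod_empty, Finset.sum_empty]
    exact ev_const one_ne_zero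
  | insert i s hi ih =>
    simp only [Finset.prod_insert hi, Finset.sum_insert hi]
    exact (h i (Finset.mem_insert_self _ _)).mul
      (ih fun j hj => h j (Finset.mem_insert_of_mem hj))

theorem ev_pow (hG : Ev V G a k) (n : ℕ) : Ev V (fun p θ => G p θ ^ n) (n * a) (n * k) := by
  induction n with
  | zero =>
    simp only [pow_zero, Nat.cast_zero, zero_mul]
    exact ev_const one_ne_zero
  | succ n ih =>
    simp only [pow_succ]
    exact (ih.mul hG).congr (by push_cast; ring) (by push_cast; ring)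

theorem ev_neg (hG : Ev V G a k) : Ev V (fun p θ => -G p θ) a k := hG.neg

/-- A family which is close to one in all respects. -/
theorem evSm_sub_one (hG : Ev V G 0 0) (h : ∀ δ : ℝ, 0 < δ → Late V fun _ p => ∀ θ, ‖G p θ - 1‖ ≤ δ) :
    EvSm V fun p θ => G p θ - 1 := by
  intro δ hδ
  have h1 : Late V fun s p => Near (G p) s 0 0 (δ / 2) := hG (δ / 2) (by linarith)
  have h2 := h (min δ 1) (by positivity)
  have h3 : Late V fun _ p => Sm (fun θ => G p θ - 1) δ := (h1.and h2).mono fun s p _ _ hp => by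
    obtain ⟨hn, hle⟩ := hp
    refine ⟨hn.good.smooth.sub contDiff_const, fun θ i => ?_, fun θ => (hle θ).trans (min_le_left _ _),
      fun j θ => ?_⟩
    · rw [hn.per]
    · have e1 : fderiv ℝ (fun θ => G p θ - 1) θ = fderiv ℝ (G p) θ := fderiv_sub_const _
      have e2 : fderiv ℝ (G p) θ (Pi.single j 1) = G p θ * lw (G p) j θ := by
        unfold lw
        rw [mul_div_cancel₀ _ (hn.good.ne_zero θ)]
      rw [e1, e2, norm_mul]
      have e3 := hn.lwd j θ
      rw [Complex.ofReal_zero, mul_zero, sub_zero] at e3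
      have e4 : ‖G p θ‖ ≤ 2 := by
        have e5 := norm_le_norm_add_norm_sub' (G p θ) 1
        rw [norm_one] at e5
        have := (hle θ).trans (min_le_right _ _)
        linarith
      have e6 : ‖G p θ‖ * ‖lw (G p) j θ‖ ≤ 2 * (δ / 2) :=
        mul_le_mul e4 e3 (norm_nonneg _) (by norm_num)
      linarith
  exact h3

end ev

section root

variable {h : (Fin 1 → ℝ) → ℂ} {s η : ℝ}

/-- The root of `1 + h` of order `N`. -/
noncomputable def rtn (N : ℕ) (h : (Fin 1 → ℝ) → ℂ) (θ : Fin 1 → ℝ) : ℂ :=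
  Complex.exp (Complex.log (1 + h θ) / N)

theorem rtn_pow {N : ℕ} (hN : N ≠ 0) (hh : Sm h η) (hη : η ≤ 1 / 4) (θ : Fin 1 → ℝ) :
    rtn N h θ ^ N = 1 + h θ := by
  have h0 : 1 + h θ ≠ 0 := by
    intro h0
    have h1 := hh.le θ
    have h2 : h θ = -1 := by linear_combination h0
    rw [h2, norm_neg, norm_one] at h1
    linarith
  unfold rtn
  have hN' : (N : ℂ) ≠ 0 := by exact_mod_cast hN
  rw [← Complex.exp_nat_mul, mul_div_cancel₀ _ hN', Complex.exp_log h0]

theorem rtn_near {N : ℕ} (hN : N ≠ 0) (hh : Sm h η) (hη : η ≤ 1 / 4) (hs : 1 ≤ s) :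
    Near (rtn N h) s 0 0 (2 * η) := by
  have hn := hh.near (by linarith) hs
  have h0 : 0 ≤ η := (norm_nonneg _).trans (hh.le 0)
  have hN1 : (1 : ℝ) ≤ N := by exact_mod_cast Nat.one_le_iff_ne_zero.2 hN
  have hsm : ContDiff ℝ 2 fun θ => Complex.log (1 + h θ) := by
    refine contDiff_iff_contDiffAt.2 fun θ => ?_
    have hmem : 1 + h θ ∈ Complex.slitPlane := by
      refine Complex.mem_slitPlane_of_norm_lt_one ?_
      exact (hh.le θ).trans_lt (by linarith)
    exact ((Complex.contDiffAt_log hmem).restrict_scalars ℝ).comp θ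
      (contDiffAt_const.add hh.smooth.contDiffAt)
  have hg : Good (rtn N h) := by
    refine ⟨?_, fun θ => Complex.exp_ne_zero _⟩
    unfold rtn
    exact Complex.contDiff_exp.comp (hsm.div_const _)
  have hsq : (fun θ => rtn N h θ ^ (N : ℤ)) = fun θ => 1 + h θ := funext fun θ => by
    rw [zpow_natCast]
    exact rtn_pow hN hh hη θ
  refine ⟨hg, fun θ i => ?_, fun θ => ?_, fun j θ => ?_⟩
  · unfold rtn
    rw [hh.per]
  · have h1 : Real.log ‖rtn N h θ‖ = Real.log ‖1 + h θ‖ / N := by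
      rw [← rtn_pow hN hh hη θ, norm_pow, Real.log_pow]
      rw [mul_div_cancel_left₀ _ (by linarith : (N : ℝ) ≠ 0)]
    rw [h1]
    have h2 := hn.log θ
    rw [sub_zero] at h2 ⊢
    have e : Real.log ‖1 + h θ‖ / N / s = (Real.log ‖1 + h θ‖ / s) / N := by ring
    rw [e, abs_div, abs_of_pos (by linarith : (0 : ℝ) < N), div_le_iff₀ (by linarith)]
    nlinarith
  · have h1 : lw (rtn N h) j θ = lw (fun θ => 1 + h θ) j θ / N := by
      have hN' : (N : ℂ) ≠ 0 := by exact_mod_cast hN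
      rw [← hsq, lw_zpow hg, Int.cast_natCast, mul_div_cancel_left₀ _ hN']
    have h2 := hn.lwd j θ
    rw [Complex.ofReal_zero, mul_zero, sub_zero] at h2 ⊢
    rw [h1, norm_div, Complex.norm_natCast, div_le_iff₀ (by linarith)]
    nlinarith

theorem rtn_sub_one {N : ℕ} (hN : N ≠ 0) (hh : Sm h η) (hη : η ≤ 1 / 4) (θ : Fin 1 → ℝ) :
    ‖rtn N h θ - 1‖ ≤ 3 * η := by
  unfold rtn
  have hN1 : (1 : ℝ) ≤ N := by exact_mod_cast Nat.one_le_iff_ne_zero.2 hN
  have h1 : ‖h θ‖ ≤ 1 / 2 := (hh.le θ).trans (by linarith)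
  have h2 := Complex.norm_log_one_add_half_le_self h1
  have h3 : ‖Complex.log (1 + h θ) / N‖ ≤ 3 / 2 * ‖h θ‖ := by
    rw [norm_div, Complex.norm_natCast]
    exact (div_le_self (norm_nonneg _) hN1).trans h2
  have h4 := Complex.norm_exp_sub_one_le (x := Complex.log (1 + h θ) / N) (by
    have := hh.le θ
    linarith)
  have := hh.le θ
  have := norm_nonneg (h θ)
  linarith

variable {P : Type*} {V : ℝ → P → Prop} {G : P → (Fin 1 → ℝ) → ℂ}

theorem ev_rtn {N : ℕ} (hN : N ≠ 0) (hG : EvSm V G) : Ev V (fun p => rtn N (G p)) 0 0 := by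
  intro δ hδ
  obtain ⟨S, hS, h1⟩ := hG (min (δ / 2) (1 / 4)) (by positivity)
  refine ⟨S, hS, fun s hs p hp => ?_⟩
  exact (rtn_near hN (h1 s hs p hp) (min_le_right _ _) (hS.trans hs)).mono (by
    have := min_le_left (δ / 2) (1 / 4 : ℝ)
    linarith)

theorem evSm_rtn {N : ℕ} (hN : N ≠ 0) (hG : EvSm V G) :
    EvSm V fun p θ => rtn N (G p) θ - 1 := by
  refine evSm_sub_one (ev_rtn hN hG) fun δ hδ => ?_
  have h1 : Late V fun _ p => Sm (G p) (min (δ / 3) (1 / 4)) := hG _ (by positivity)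
  exact h1.mono fun s p _ _ hp θ => (rtn_sub_one hN hp (min_le_right _ _) θ).trans (by
    have := min_le_left (δ / 3) (1 / 4 : ℝ)
    linarith)

theorem late_rtn {N : ℕ} (hN : N ≠ 0) (hG : EvSm V G) :
    Late V fun _ p => ∀ θ, rtn N (G p) θ ^ N = 1 + G p θ := by
  have h1 : Late V fun _ p => Sm (G p) (1 / 4) := hG _ (by norm_num)
  exact h1.mono fun s p _ _ hp θ => rtn_pow hN hp le_rfl θ

end root

end Pool.Agent.L7h9.MS
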